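import Pool.Agent.Helper14.TH7.StD

/-!
# Project TH (levels `2 * 7^n`), module REL: the relation between the plane functions of a symbol
-/

set_option autoImplicit false

namespace Pool.Agent.Helper51.TH7

open Pool.Agent.Helper14.CV (Homog EqC act Tl StFar StFex)
open Pool.Agent.Helper76.TH7 (PlH rYH edgeH HPlA7 HEdg7 ddH7)
open Pool.Agent.Helper84.S7
open Pool.Agent.Helper93.TLH (HTy SymH)
open Pool.Agent.Helper14.TH7

/-- Scalar multiples of the vector do not matter. -/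
private lemma rel_sc {R : Type} {G : ℤ → ℤ → R} (hG : Homog G) (X Y k u1 u2 : ℤ) (hk : k ≠ 0)
    (hu : u1 ≠ 0 ∨ u2 ≠ 0) :
    G (k * u1 + X * (k * u2)) (7 * Y * (k * u1) + (1 + 7 * X * Y) * (k * u2)) =
      G (u1 + X * u2) (7 * Y * u1 + (1 + 7 * X * Y) * u2) := by
  have hne : (1 * u1 + X * u2 ≠ 0 ∨ (7 * Y) * u1 + (1 + 7 * X * Y) * u2 ≠ 0) :=
    Pool.Agent.Helper14.CV.ne_zero_of_det (a := 1) (b := X) (c := 7 * Y) (d := 1 + 7 * X * Y)
      (by ring_nf; norm_num) hu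
  rw [one_mul] at hne
  rw [← hG k _ _ hk hne]
  congr 1 <;> ring

/-- REL: the plane functions of a symbol satisfy the relation. -/
theorem hRel (ht : TTre) : TRel := by
  intro R _ r s G hG x y
  have k0 : (pfH G 0 : ZMod (7 ^ r) → ZMod (7 ^ s) → R) = edgeH 0 1 0 0 1 G := by
    funext x y; rfl
  have k1 : (pfH G 1 : ZMod (7 ^ r) → ZMod (7 ^ s) → R) = edgeH 0 1 2 0 1 G := by
    funext x y; rfl
  have k2 : (pfH G 2 : ZMod (7 ^ r) → ZMod (7 ^ s) → R) = edgeH 0 1 4 0 1 G := by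
    funext x y; rfl
  have h1 := ht R _ r s G hG 4 (-3) 2 (-10) 1 2 0 1 (by unfold HTy; decide) (by simp) (by simp) x y
  have h2 := ht R _ r s G hG 4 (-3) 2 (-10) 1 0 0 1 (by unfold HTy; decide) (by simp) (by simp) x y
  have h3 := ht R _ r s G hG 4 1 2 4 1 0 0 1 (by unfold HTy; decide) (by simp) (by simp) x y
  have h4 := ht R _ r s G hG 6 (-1) 2 (-2) 1 4 0 1 (by unfold HTy; decide) (by simp) (by simp) x y
  have n1 := rel_sc hG.1 (x.val : ℤ) (rYH 0 x y) (-2) 1 3 (by norm_num) (by simp)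
  have n2 := rel_sc hG.1 (x.val : ℤ) (rYH 0 x y) 2 1 3 (by norm_num) (by simp)
  have n3 := rel_sc hG.1 (x.val : ℤ) (rYH 0 x y) (-1) 1 2 (by norm_num) (by simp)
  show (pfH G 1 : ZMod (7 ^ r) → ZMod (7 ^ s) → R) x y - tr7 4 (-3) 2 (-10) (pfH G 1) x y +
    (tr7 4 (-3) 2 (-10) (pfH G 0) x y - tr7 4 1 2 4 (pfH G 0) x y) -
    ((pfH G 2 : ZMod (7 ^ r) → ZMod (7 ^ s) → R) x y - tr7 6 (-1) 2 (-2) (pfH G 2) x y) = 0
  rw [k0, k1, k2, ← h1, ← h2, ← h3, ← h4]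
  unfold edgeH
  norm_num at n1 n2 n3 ⊢
  rw [n1, n2, n3]
  abel

end Pool.Agent.Helper51.TH7
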